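import Mathlib
import Pool.Agent.Helper579.IidLower
set_option autoImplicit false

/-!
# Sheared unit squares: admissible domains of volume one
-/

namespace Pool.Agent.H896IID
open MeasureTheory Set Filter Pool.Agent.Helper579.Iid
open scoped ENNReal Topology

/-- the sheared unit square with vertices `(0,0)`, `(1,0)`, `(k+1,1)`, `(k,1)` -/
def Dk (k : ℝ) : Set (Fin 2 → ℝ) :=
  {z | (0 < z 1 ∧ z 1 < 1) ∧ (0 < z 0 - k * z 1 ∧ z 0 - k * z 1 < 1)}

theorem Dk_open (k : ℝ) : IsOpen (Dk k) := by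
  have h0 : Continuous fun z : Fin 2 → ℝ => z 0 - k * z 1 := by fun_prop
  have h1 : Continuous fun z : Fin 2 → ℝ => z 1 := by fun_prop
  exact ((isOpen_lt continuous_const h1).inter (isOpen_lt h1 continuous_const)).inter
    ((isOpen_lt continuous_const h0).inter (isOpen_lt h0 continuous_const))

theorem Dk_nonempty (k : ℝ) : (Dk k).Nonempty := by
  refine ⟨![1 / 2 + k * (1 / 2), 1 / 2], ?_⟩
  simp only [Dk, mem_setOf_eq, Matrix.cons_val_zero, Matrix.cons_val_one]
  norm_num

theorem Dk_bounded {k : ℝ} (hk : 0 ≤ k) : Bornology.IsBounded (Dk k) := by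
  refine (Metric.isBounded_closedBall (x := (0 : Fin 2 → ℝ)) (r := k + 1)).subset ?_
  rintro z ⟨⟨h1, h2⟩, h3, h4⟩
  rw [mem_closedBall_zero_iff, pi_norm_le_iff_of_nonneg (by positivity)]
  intro i
  have h5 : 0 ≤ k * z 1 := by positivity
  have h6 : k * z 1 ≤ k := by nlinarith
  fin_cases i
  · show |z 0| ≤ k + 1
    rw [abs_le]; constructor <;> linarith
  · show |z 1| ≤ k + 1
    rw [abs_le]; constructor <;> linarith

theorem Dk_cone {k : ℝ} (hk : 0 ≤ k) : ConeCondition (Dk k) := by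
  set θ : ℝ := 1 / ((k + 2) * (k + 2)) with hθ
  have hk2 : 0 < k + 2 := by linarith
  have hθ0 : 0 < θ := by positivity
  have hθk : θ * (k + 2) = 1 / (k + 2) := by rw [hθ]; field_simp
  have hθ1 : θ ≤ 1 / 4 := by
    rw [hθ]
    apply one_div_le_one_div_of_le (by norm_num)
    nlinarith
  refine ⟨θ, 1 / (4 * (k + 2)), hθ0, by have := Real.pi_gt_three; linarith, by positivity, ?_⟩
  intro x hx
  obtain ⟨⟨x1, x2⟩, x3, x4⟩ := hx
  set s0 : ℝ := if x 0 - k * x 1 < 1 / 2 then 1 else -1 with hs0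
  set s1 : ℝ := if x 1 < 1 / 2 then 1 else -1 with hs1
  have e0 : s0 ^ 2 = 1 := by rw [hs0]; split_ifs <;> norm_num
  have e1 : s1 ^ 2 = 1 := by rw [hs1]; split_ifs <;> norm_num
  have a0 : |s0| = 1 := by rw [hs0]; split_ifs <;> norm_num
  have a1 : |s1| = 1 := by rw [hs1]; split_ifs <;> norm_num
  set N : ℝ := Real.sqrt ((s0 + k * s1) ^ 2 + s1 ^ 2) with hN
  have hNsq : N ^ 2 = (s0 + k * s1) ^ 2 + s1 ^ 2 := Real.sq_sqrt (by positivity)
  have hNpos : 0 < N := Real.sqrt_pos.2 (by rw [e1]; positivity)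
  have hNle : N ≤ k + 2 := by
    have h1 : |s0 + k * s1| ≤ 1 + k := by
      calc |s0 + k * s1| ≤ |s0| + |k * s1| := abs_add_le _ _
        _ = 1 + k := by rw [a0, abs_mul, a1, abs_of_nonneg hk, mul_one]
    have h2 : (s0 + k * s1) ^ 2 ≤ (1 + k) ^ 2 := by
      rw [← sq_abs]; exact pow_le_pow_left₀ (abs_nonneg _) h1 2
    rw [hN]
    apply Real.sqrt_le_iff.2 ⟨hk2.le, ?_⟩
    rw [e1]; nlinarith
  have hNinv : 1 / (k + 2) ≤ 1 / N := one_div_le_one_div_of_le hNpos hNle
  refine ⟨![(s0 + k * s1) / N, s1 / N], ?_, ?_⟩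
  · simp only [Fin.sum_univ_two, Matrix.cons_val_zero, Matrix.cons_val_one]
    rw [div_pow, div_pow, ← add_div, ← hNsq]
    field_simp
  · intro y hy hc t ht
    simp only [Fin.sum_univ_two, Matrix.cons_val_zero, Matrix.cons_val_one] at hy hc
    set p := (s0 + k * s1) / N with hp
    set r := s1 / N with hr
    have hpr : p ^ 2 + r ^ 2 = 1 := by
      rw [hp, hr, div_pow, div_pow, ← add_div, ← hNsq]; field_simp
    have hcos := Real.one_sub_sq_div_two_le_cos (x := θ)
    have hd : (y 0 - p) ^ 2 + (y 1 - r) ^ 2 ≤ θ ^ 2 := by nlinarith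
    have d0 : |y 0 - p| ≤ θ := by
      apply abs_le_of_sq_le_sq _ hθ0.le
      nlinarith [sq_nonneg (y 1 - r)]
    have d1 : |y 1 - r| ≤ θ := by
      apply abs_le_of_sq_le_sq _ hθ0.le
      nlinarith [sq_nonneg (y 0 - p)]
    have g1 : 0 ≤ s1 * y 1 := by
      have h1 : s1 * r = 1 / N := by rw [hr, ← mul_div_assoc, ← pow_two, e1]
      have h2 : |s1 * (y 1 - r)| ≤ θ := by rw [abs_mul, a1, one_mul]; exact d1
      have h3 := (abs_le.1 h2).1
      have h4 : s1 * y 1 = s1 * r + s1 * (y 1 - r) := by ring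
      have h5 : θ ≤ 1 / (k + 2) := by rw [← hθk]; nlinarith
      rw [h4, h1]; linarith
    have g0 : 0 ≤ s0 * (y 0 - k * y 1) := by
      have h1 : s0 * (p - k * r) = 1 / N := by
        have : p - k * r = s0 / N := by rw [hp, hr]; ring
        rw [this, ← mul_div_assoc, ← pow_two, e0]
      have h2 : |s0 * ((y 0 - p) - k * (y 1 - r))| ≤ θ * (k + 2) := by
        rw [abs_mul, a0, one_mul]
        calc |(y 0 - p) - k * (y 1 - r)| ≤ |y 0 - p| + |k * (y 1 - r)| := abs_sub _ _
          _ ≤ θ + k * θ := by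
            rw [abs_mul, abs_of_nonneg hk]
            exact add_le_add d0 (mul_le_mul_of_nonneg_left d1 hk)
          _ ≤ _ := by nlinarith
      have h3 := (abs_le.1 h2).1
      have h4 : s0 * (y 0 - k * y 1) = s0 * (p - k * r) + s0 * ((y 0 - p) - k * (y 1 - r)) := by
        ring
      rw [h4, h1]
      rw [hθk] at h3
      linarith
    have b0 : |y 0| ≤ 1 := by
      apply abs_le_of_sq_le_sq _ zero_le_one
      nlinarith [sq_nonneg (y 1)]
    have b1 : |y 1| ≤ 1 := by
      apply abs_le_of_sq_le_sq _ zero_le_one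
      nlinarith [sq_nonneg (y 0)]
    obtain ⟨t0, t1⟩ := ht
    have ht4 : t * (k + 2) ≤ 1 / 4 := by
      calc t * (k + 2) ≤ 1 / (4 * (k + 2)) * (k + 2) := mul_le_mul_of_nonneg_right t1 hk2.le
        _ = 1 / 4 := by field_simp
    have c1 : |t * y 1| ≤ 1 / 4 := by
      rw [abs_mul, abs_of_nonneg t0]
      calc t * |y 1| ≤ t * 1 := mul_le_mul_of_nonneg_left b1 t0
        _ ≤ t * (k + 2) := mul_le_mul_of_nonneg_left (by linarith) t0
        _ ≤ _ := ht4
    have c0 : |t * (y 0 - k * y 1)| ≤ 1 / 4 := by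
      rw [abs_mul, abs_of_nonneg t0]
      calc t * |y 0 - k * y 1| ≤ t * (1 + k) := by
            apply mul_le_mul_of_nonneg_left _ t0
            calc |y 0 - k * y 1| ≤ |y 0| + |k * y 1| := abs_sub _ _
              _ ≤ 1 + k := by
                rw [abs_mul, abs_of_nonneg hk]
                exact add_le_add b0 (mul_le_of_le_one_right hk b1)
        _ ≤ t * (k + 2) := mul_le_mul_of_nonneg_left (by linarith) t0
        _ ≤ _ := ht4
    rw [abs_le] at c0 c1
    have key : ∀ w s m : ℝ, 0 < w → w < 1 → s = (if w < 1 / 2 then 1 else -1) → 0 ≤ s * m →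
        -(1 / 4) ≤ m → m ≤ 1 / 4 → 0 < w + m ∧ w + m < 1 := by
      intro w s m w0 w1 hs hm m1 m2
      by_cases hw : w < 1 / 2
      · rw [if_pos hw] at hs
        rw [hs] at hm
        constructor <;> linarith
      · rw [if_neg hw] at hs
        rw [hs] at hm
        push Not at hw
        constructor <;> linarith
    have k1 := key (x 1) s1 (t * y 1) x1 x2 hs1 (by
      have : s1 * (t * y 1) = t * (s1 * y 1) := by ring
      rw [this]; positivity) c1.1 c1.2
    have k0 := key (x 0 - k * x 1) s0 (t * (y 0 - k * y 1)) x3 x4 hs0 (by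
      have : s0 * (t * (y 0 - k * y 1)) = t * (s0 * (y 0 - k * y 1)) := by ring
      rw [this]; positivity) c0.1 c0.2
    have z0 : (x + t • y) 0 = x 0 + t * y 0 := rfl
    have z1 : (x + t • y) 1 = x 1 + t * y 1 := rfl
    refine ⟨?_, ?_⟩
    · rw [z1]; exact k1
    · rw [z0, z1]
      have : x 0 + t * y 0 - k * (x 1 + t * y 1) = x 0 - k * x 1 + t * (y 0 - k * y 1) := by ring
      rw [this]; exact k0

theorem Dk_admissible {k : ℝ} (hk : 0 ≤ k) : Admissible (Dk k) :=
  ⟨by norm_num, Dk_open k, Dk_nonempty k, Dk_bounded hk, Dk_cone hk⟩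

/-! ### the shear -/

/-- the shear -/
def sh (k : ℝ) (z : Fin 2 → ℝ) : Fin 2 → ℝ := ![z 0 - k * z 1, z 1]

theorem sh_mp (k : ℝ) : MeasurePreserving (sh k) (volume : Measure (Fin 2 → ℝ)) volume := by
  have h := Real.volume_preserving_transvectionStruct
    (⟨0, 1, by norm_num, -k⟩ : Matrix.TransvectionStruct (Fin 2) ℝ)
  have e : sh k = Matrix.toLin'
      (⟨0, 1, by norm_num, -k⟩ : Matrix.TransvectionStruct (Fin 2) ℝ).toMatrix := by
    funext z
    ext i
    rw [Matrix.toLin'_apply]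
    fin_cases i <;>
      simp [sh, Matrix.TransvectionStruct.toMatrix, Matrix.transvection, Matrix.mulVec,
        dotProduct, Fin.sum_univ_two, Matrix.single_apply, Matrix.one_apply] <;> ring
  rw [e]; exact h

theorem Dk_eq (k : ℝ) : Dk k = sh k ⁻¹' (Set.pi univ fun _ => Ioo (0 : ℝ) 1) := by
  ext z
  simp only [Dk, mem_setOf_eq, mem_preimage, Set.mem_pi, mem_univ, true_implies, Fin.forall_fin_two,
    sh, Matrix.cons_val_zero, Matrix.cons_val_one, mem_Ioo]
  tauto

theorem Dk_volume (k : ℝ) : volume (Dk k) = 1 := by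
  rw [Dk_eq, (sh_mp k).measure_preimage
    (MeasurableSet.univ_pi fun _ => measurableSet_Ioo).nullMeasurableSet]
  rw [Real.volume_pi_Ioo]
  simp

end Pool.Agent.H896IID
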