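import Mathlib
import Pool.Agent.H896IID.Dk
set_option autoImplicit false

/-!
# One-dimensional test functions and products in sheared coordinates
-/

namespace Pool.Agent.H896IID
open MeasureTheory Set Filter Pool.Agent.Helper579.Iid
open scoped ENNReal Topology

/-- nonnegative smooth functions of integral one with support in `(a,b)` -/
structure Bmp (ρ : ℝ → ℝ) (a b : ℝ) : Prop where
  smooth : ContDiff ℝ (⊤ : ℕ∞) ρ
  nonneg : ∀ t, 0 ≤ ρ t
  supp : ∀ t, t ∉ Ioo a b → ρ t = 0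
  int : ∫ t, ρ t = 1

/-- smooth functions with support in `[a,b]` -/
structure Tst (φ : ℝ → ℝ) (a b : ℝ) : Prop where
  smooth : ContDiff ℝ (⊤ : ℕ∞) φ
  supp : ∀ t, t ∉ Icc a b → φ t = 0

theorem bmp_exists (t δ : ℝ) (hδ : 0 < δ) : ∃ ρ, Bmp ρ (t - δ) (t + δ) := by
  let B : ContDiffBump t := ⟨δ / 2, δ, by positivity, by linarith⟩
  refine ⟨B.normed volume, B.contDiff_normed, fun s => B.nonneg_normed s, fun s hs => ?_,
    B.integral_normed⟩
  have h := B.support_normed_eq (μ := volume)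
  by_contra hne
  have h1 : s ∈ Function.support (B.normed volume) := hne
  rw [h, Real.ball_eq_Ioo] at h1
  exact hs h1

theorem Bmp.mono {ρ : ℝ → ℝ} {a b a' b' : ℝ} (h : Bmp ρ a b) (ha : a' ≤ a) (hb : b ≤ b') :
    Bmp ρ a' b' :=
  ⟨h.smooth, h.nonneg, fun t ht => h.supp t fun ht' => ht ⟨ha.trans_lt ht'.1, ht'.2.trans_le hb⟩,
    h.int⟩

theorem Bmp.integrable {ρ : ℝ → ℝ} {a b : ℝ} (h : Bmp ρ a b) : Integrable ρ := by
  apply h.smooth.continuous.integrable_of_hasCompactSupport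
  exact HasCompactSupport.intro (isCompact_Icc (a := a) (b := b))
    fun t ht => h.supp t fun ht' => ht (Ioo_subset_Icc_self ht')

theorem Bmp.tst {ρ : ℝ → ℝ} {a b : ℝ} (h : Bmp ρ a b) : Tst ρ a b :=
  ⟨h.smooth, fun t ht => h.supp t fun ht' => ht (Ioo_subset_Icc_self ht')⟩

theorem Tst.mono {ρ : ℝ → ℝ} {a b a' b' : ℝ} (h : Tst ρ a b) (ha : a' ≤ a) (hb : b ≤ b') :
    Tst ρ a' b' :=
  ⟨h.smooth, fun t ht => h.supp t fun ht' => ht ⟨ha.trans ht'.1, ht'.2.trans hb⟩⟩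

theorem Tst.bdd {ρ : ℝ → ℝ} {a b : ℝ} (h : Tst ρ a b) : ∃ M, 1 ≤ M ∧ ∀ t, |ρ t| ≤ M := by
  obtain ⟨C, hC⟩ := (isCompact_Icc (a := a) (b := b)).exists_bound_of_continuousOn
    h.smooth.continuous.continuousOn
  refine ⟨max C 1, le_max_right _ _, fun t => ?_⟩
  by_cases ht : t ∈ Icc a b
  · exact (hC t ht).trans (le_max_left _ _)
  · rw [h.supp t ht, abs_zero]; positivity

theorem Bmp.prim {ρ : ℝ → ℝ} {a b : ℝ} (h : Bmp ρ a b) (ha : 0 < a) (hab : a ≤ b) (t : ℝ) :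
    0 ≤ (∫ s in (0 : ℝ)..t, ρ s) ∧ (∫ s in (0 : ℝ)..t, ρ s) ≤ 1 ∧
      (t ≤ a → ∫ s in (0 : ℝ)..t, ρ s = 0) ∧ (b ≤ t → ∫ s in (0 : ℝ)..t, ρ s = 1) := by
  have hlow : t ≤ a → ∫ s in (0 : ℝ)..t, ρ s = 0 := by
    intro ht
    have : ∫ s in (0 : ℝ)..t, ρ s = ∫ s in (0 : ℝ)..t, (0 : ℝ) := by
      apply intervalIntegral.integral_congr
      intro s hs
      apply h.supp
      intro hs'
      have h1 : s ≤ a := hs.2.trans (max_le ha.le ht)
      linarith [hs'.1]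
    rw [this]; simp
  have hhigh : b ≤ t → ∫ s in (0 : ℝ)..t, ρ s = 1 := by
    intro ht
    have ht0 : 0 ≤ t := by linarith
    rw [intervalIntegral.integral_of_le ht0, ← h.int]
    apply setIntegral_eq_integral_of_forall_compl_eq_zero
    intro s hs
    apply h.supp
    intro hs'
    exact hs ⟨ha.trans hs'.1, hs'.2.le.trans ht⟩
  rcases le_total t a with hta | hta
  · rw [hlow hta]
    exact ⟨le_rfl, zero_le_one, fun _ => rfl, fun hb => by rw [← hlow hta, hhigh hb]⟩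
  · have ht0 : 0 ≤ t := by linarith
    refine ⟨?_, ?_, hlow, hhigh⟩
    · rw [intervalIntegral.integral_of_le ht0]
      exact setIntegral_nonneg measurableSet_Ioc fun s _ => h.nonneg s
    · rw [intervalIntegral.integral_of_le ht0, ← h.int]
      exact setIntegral_le_integral h.integrable (Eventually.of_forall h.nonneg)

/-- the difference of two bumps is the derivative of a test function bounded by one -/
theorem psi_exists {ρ η : ℝ → ℝ} {a b : ℝ} (hρ : Bmp ρ a b) (hη : Bmp η a b) (ha : 0 < a)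
    (hab : a ≤ b) : ∃ ψ : ℝ → ℝ, Tst ψ a b ∧ (∀ t, |ψ t| ≤ 1) ∧ ∀ t, deriv ψ t = ρ t - η t := by
  let ψ : ℝ → ℝ := fun t => (∫ s in (0 : ℝ)..t, ρ s) - ∫ s in (0 : ℝ)..t, η s
  have hd : ∀ t, HasDerivAt ψ (ρ t - η t) t := by
    intro t
    exact (hρ.smooth.continuous.integral_hasStrictDerivAt 0 t).hasDerivAt.sub
      (hη.smooth.continuous.integral_hasStrictDerivAt 0 t).hasDerivAt
  have hd' : deriv ψ = fun t => ρ t - η t := funext fun t => (hd t).deriv
  refine ⟨ψ, ⟨?_, ?_⟩, ?_, fun t => (hd t).deriv⟩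
  · rw [contDiff_infty_iff_deriv]
    refine ⟨fun t => (hd t).differentiableAt, ?_⟩
    rw [hd']
    exact hρ.smooth.sub hη.smooth
  · intro t ht
    obtain ⟨-, -, p1, p2⟩ := hρ.prim ha hab t
    obtain ⟨-, -, q1, q2⟩ := hη.prim ha hab t
    show (∫ s in (0 : ℝ)..t, ρ s) - (∫ s in (0 : ℝ)..t, η s) = 0
    rw [mem_Icc, not_and_or, not_le, not_le] at ht
    rcases ht with ht | ht
    · rw [p1 ht.le, q1 ht.le, sub_zero]
    · rw [p2 ht.le, q2 ht.le, sub_self]
  · intro t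
    obtain ⟨p1, p2, -, -⟩ := hρ.prim ha hab t
    obtain ⟨q1, q2, -, -⟩ := hη.prim ha hab t
    show |(∫ s in (0 : ℝ)..t, ρ s) - (∫ s in (0 : ℝ)..t, η s)| ≤ 1
    rw [abs_le]; constructor <;> linarith

/-! ### products -/

/-- product of test functions in sheared coordinates -/
def tf (k : ℝ) (a b : ℝ → ℝ) (z : Fin 2 → ℝ) : ℝ := a (z 0 - k * z 1) * b (z 1)

theorem tf_smooth (k : ℝ) {a b : ℝ → ℝ} (ha : ContDiff ℝ (⊤ : ℕ∞) a)
    (hb : ContDiff ℝ (⊤ : ℕ∞) b) : ContDiff ℝ (⊤ : ℕ∞) (tf k a b) := by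
  have h1 : ContDiff ℝ (⊤ : ℕ∞) fun z : Fin 2 → ℝ => z 0 - k * z 1 := by fun_prop
  have h2 : ContDiff ℝ (⊤ : ℕ∞) fun z : Fin 2 → ℝ => z 1 := by fun_prop
  exact (ha.comp h1).mul (hb.comp h2)

theorem tf_fderiv (k : ℝ) {a b : ℝ → ℝ} (ha : Differentiable ℝ a) (hb : Differentiable ℝ b)
    (z v : Fin 2 → ℝ) : fderiv ℝ (tf k a b) z v =
      deriv a (z 0 - k * z 1) * (v 0 - k * v 1) * b (z 1) +
        a (z 0 - k * z 1) * (deriv b (z 1) * v 1) := by
  let U : (Fin 2 → ℝ) →L[ℝ] ℝ := ContinuousLinearMap.proj 0 - k • ContinuousLinearMap.proj 1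
  let W : (Fin 2 → ℝ) →L[ℝ] ℝ := ContinuousLinearMap.proj 1
  have hU : ∀ z, U z = z 0 - k * z 1 := fun z => rfl
  have hW : ∀ z, W z = z 1 := fun z => rfl
  have h1 : HasFDerivAt (fun z : Fin 2 → ℝ => a (z 0 - k * z 1)) (deriv a (z 0 - k * z 1) • U) z := by
    have := (ha (U z)).hasDerivAt.comp_hasFDerivAt z U.hasFDerivAt
    exact this
  have h2 : HasFDerivAt (fun z : Fin 2 → ℝ => b (z 1)) (deriv b (z 1) • W) z := by
    have := (hb (W z)).hasDerivAt.comp_hasFDerivAt z W.hasFDerivAt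
    exact this
  have h3 := (h1.mul h2).fderiv
  have h4 : fderiv ℝ (tf k a b) z = a (z 0 - k * z 1) • deriv b (z 1) • W +
      b (z 1) • deriv a (z 0 - k * z 1) • U := h3
  rw [h4]
  simp only [ContinuousLinearMap.add_apply, ContinuousLinearMap.smul_apply, smul_eq_mul, hU, hW]
  ring

theorem single00 : (Pi.single (0 : Fin 2) (1 : ℝ) : Fin 2 → ℝ) 0 = 1 := by simp
theorem single01 : (Pi.single (0 : Fin 2) (1 : ℝ) : Fin 2 → ℝ) 1 = 0 := by simp
theorem single10 : (Pi.single (1 : Fin 2) (1 : ℝ) : Fin 2 → ℝ) 0 = 0 := by simp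
theorem single11 : (Pi.single (1 : Fin 2) (1 : ℝ) : Fin 2 → ℝ) 1 = 1 := by simp

theorem pd0_tf (k : ℝ) {a b : ℝ → ℝ} (ha : Differentiable ℝ a) (hb : Differentiable ℝ b) :
    pderiv 0 (tf k a b) = tf k (deriv a) b := by
  funext z
  show fderiv ℝ (tf k a b) z (Pi.single 0 1) = _
  rw [tf_fderiv k ha hb, single00, single01]
  unfold tf; ring

theorem pd1_tf (k : ℝ) {a b : ℝ → ℝ} (ha : Differentiable ℝ a) (hb : Differentiable ℝ b) :
    pderiv 1 (tf k a b) = fun z => -k * tf k (deriv a) b z + tf k a (deriv b) z := by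
  funext z
  show fderiv ℝ (tf k a b) z (Pi.single 1 1) = _
  rw [tf_fderiv k ha hb, single10, single11]
  unfold tf; ring

theorem diff_of_smooth {a : ℝ → ℝ} (ha : ContDiff ℝ (⊤ : ℕ∞) a) : Differentiable ℝ a :=
  ha.differentiable (by simp)

theorem smooth_deriv {a : ℝ → ℝ} (ha : ContDiff ℝ (⊤ : ℕ∞) a) :
    ContDiff ℝ (⊤ : ℕ∞) (deriv a) := (contDiff_infty_iff_deriv.1 ha).2

theorem md20_tf (k : ℝ) {a b : ℝ → ℝ} (ha : ContDiff ℝ (⊤ : ℕ∞) a)
    (hb : ContDiff ℝ (⊤ : ℕ∞) b) : mderiv ![2, 0] (tf k a b) = tf k (deriv (deriv a)) b := by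
  have e : mderiv ![2, 0] (tf k a b) = pderiv 0 (pderiv 0 (tf k a b)) := by
    unfold mderiv
    simp [List.finRange_succ]
  rw [e, pd0_tf k (diff_of_smooth ha) (diff_of_smooth hb),
    pd0_tf k (diff_of_smooth (smooth_deriv ha)) (diff_of_smooth hb)]

theorem md11_tf (k : ℝ) {a b : ℝ → ℝ} (ha : ContDiff ℝ (⊤ : ℕ∞) a)
    (hb : ContDiff ℝ (⊤ : ℕ∞) b) : mderiv ![1, 1] (tf k a b) =
      fun z => -k * tf k (deriv (deriv a)) b z + tf k (deriv a) (deriv b) z := by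
  have e : mderiv ![1, 1] (tf k a b) = pderiv 0 (pderiv 1 (tf k a b)) := by
    unfold mderiv
    simp [List.finRange_succ]
  rw [e, pd1_tf k (diff_of_smooth ha) (diff_of_smooth hb)]
  funext z
  have d1 : Differentiable ℝ (tf k (deriv a) b) :=
    (tf_smooth k (smooth_deriv ha) hb).differentiable (by simp)
  have d2 : Differentiable ℝ (tf k a (deriv b)) :=
    (tf_smooth k ha (smooth_deriv hb)).differentiable (by simp)
  have h1 := congrFun (pd0_tf k (diff_of_smooth (smooth_deriv ha)) (diff_of_smooth hb)) z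
  have h2 := congrFun (pd0_tf k (diff_of_smooth ha) (diff_of_smooth (smooth_deriv hb))) z
  unfold pderiv at h1 h2
  show fderiv ℝ (fun z => -k * tf k (deriv a) b z + tf k a (deriv b) z) z (Pi.single 0 1) = _
  have h3 : fderiv ℝ (fun z => -k * tf k (deriv a) b z + tf k a (deriv b) z) z =
      (-k) • fderiv ℝ (tf k (deriv a) b) z + fderiv ℝ (tf k a (deriv b)) z :=
    (((d1 z).hasFDerivAt.const_mul (-k)).add (d2 z).hasFDerivAt).fderiv
  rw [h3]
  simp only [ContinuousLinearMap.add_apply, ContinuousLinearMap.smul_apply, smul_eq_mul]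
  rw [h1, h2]

/-- the product of two test functions with supports in `[a,b] ⊂ (0,1)` is a test function on the
sheared square -/
theorem tf_supp {k : ℝ} (hk : 0 ≤ k) {φ ψ : ℝ → ℝ} {a b : ℝ} (hφ : Tst φ a b) (hψ : Tst ψ a b)
    (ha : 0 < a) (hb : b < 1) :
    HasCompactSupport (tf k φ ψ) ∧ tsupport (tf k φ ψ) ⊆ Dk k := by
  let K : Set (Fin 2 → ℝ) := {z | z 0 - k * z 1 ∈ Icc a b ∧ z 1 ∈ Icc a b}
  have hK : IsClosed K := by
    have h0 : Continuous fun z : Fin 2 → ℝ => z 0 - k * z 1 := by fun_prop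
    have h1 : Continuous fun z : Fin 2 → ℝ => z 1 := by fun_prop
    exact (isClosed_Icc.preimage h0).inter (isClosed_Icc.preimage h1)
  have hKD : K ⊆ Dk k := by
    rintro z ⟨⟨h1, h2⟩, h3, h4⟩
    exact ⟨⟨by linarith, by linarith⟩, by linarith, by linarith⟩
  have hKc : IsCompact K := Metric.isCompact_of_isClosed_isBounded hK ((Dk_bounded hk).subset hKD)
  have hs : Function.support (tf k φ ψ) ⊆ K := by
    intro z hz
    by_contra hzK
    apply hz
    have : z 0 - k * z 1 ∉ Icc a b ∨ z 1 ∉ Icc a b := by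
      by_contra h
      push Not at h
      exact hzK h
    rcases this with h | h
    · show φ _ * ψ _ = 0
      rw [hφ.supp _ h, zero_mul]
    · show φ _ * ψ _ = 0
      rw [hψ.supp _ h, mul_zero]
  exact ⟨HasCompactSupport.of_support_subset_isCompact hKc hs,
    (closure_minimal hs hK).trans hKD⟩

end Pool.Agent.H896IID
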