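import Mathlib
import Pool.Agent.H896IID.Emb1
set_option autoImplicit false

/-!
# Embedding of `W_1^2` of the sheared squares into the bounded functions
-/

namespace Pool.Agent.H896IID
open MeasureTheory Set Filter Pool.Agent.Helper579.Iid
open scoped ENNReal Topology

theorem multi22 : multi 2 2 = {![0, 0], ![1, 0], ![0, 1], ![2, 0], ![1, 1], ![0, 2]} := by decide

theorem md10 (φ : (Fin 2 → ℝ) → ℝ) : mderiv ![1, 0] φ = pderiv 0 φ := by
  unfold mderiv
  simp [List.finRange_succ]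

theorem md01 (φ : (Fin 2 → ℝ) → ℝ) : mderiv ![0, 1] φ = pderiv 1 φ := by
  unfold mderiv
  simp [List.finRange_succ]

theorem md00 (φ : (Fin 2 → ℝ) → ℝ) : mderiv ![0, 0] φ = φ := by
  unfold mderiv
  simp [List.finRange_succ]

theorem sobNorm21 (D : Set (Fin 2 → ℝ)) (g : (Fin 2 → ℕ) → (Fin 2 → ℝ) → ℝ) :
    sobNorm D 2 1 g = ∑ α ∈ multi 2 2, eLpNorm (g α) 1 (volume.restrict D) := by
  unfold sobNorm
  rw [if_neg (by norm_num)]
  simp

/-- integrals against bounded continuous functions -/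
theorem int_bound {D : Set (Fin 2 → ℝ)} {g φ : (Fin 2 → ℝ) → ℝ} (hg : IntegrableOn g D)
    (hg1 : ∫ z in D, |g z| ≤ 1) (hφ : Continuous φ) {B : ℝ} (hB : 0 ≤ B) (hb : ∀ z, |φ z| ≤ B) :
    IntegrableOn (fun z => g z * φ z) D ∧ |∫ z in D, g z * φ z| ≤ B := by
  have hi : IntegrableOn (fun z => g z * φ z) D := by
    refine Integrable.mul_bdd (c := B) hg hφ.aestronglyMeasurable ?_
    exact Eventually.of_forall fun z => by rw [Real.norm_eq_abs]; exact hb z
  refine ⟨hi, ?_⟩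
  calc |∫ z in D, g z * φ z| ≤ ∫ z in D, |g z * φ z| := abs_integral_le_integral_abs
    _ ≤ ∫ z in D, B * |g z| := by
        apply integral_mono hi.abs (hg.abs.const_mul B)
        intro z
        show |g z * φ z| ≤ B * |g z|
        rw [abs_mul, mul_comm]
        exact mul_le_mul_of_nonneg_right (hb z) (abs_nonneg _)
    _ = B * ∫ z in D, |g z| := integral_const_mul _ _
    _ ≤ B * 1 := mul_le_mul_of_nonneg_left hg1 hB
    _ = B := mul_one B

theorem l1_of {D : Set (Fin 2 → ℝ)} {g : (Fin 2 → ℝ) → ℝ}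
    (hl : LocallyIntegrableOn g D) (h : eLpNorm g 1 (volume.restrict D) ≤ 1) :
    IntegrableOn g D ∧ ∫ z in D, |g z| ≤ 1 := by
  have hm : AEStronglyMeasurable g (volume.restrict D) := hl.aestronglyMeasurable
  have hi : IntegrableOn g D := by
    rw [IntegrableOn, ← memLp_one_iff_integrable]
    exact ⟨hm, h.trans_lt ENNReal.one_lt_top⟩
  refine ⟨hi, ?_⟩
  have h1 : ∫ z in D, |g z| = (eLpNorm g 1 (volume.restrict D)).toReal := by
    rw [eLpNorm_one_eq_lintegral_enorm]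
    exact integral_norm_eq_lintegral_enorm hm
  rw [h1]
  exact ENNReal.toReal_le_of_le_ofReal zero_le_one (by simpa using h)

/-- the integral of a product of bumps -/
theorem tf_int {k : ℝ} {ρ₁ ρ₂ : ℝ → ℝ} {a b : ℝ} (h1 : Bmp ρ₁ a b) (h2 : Bmp ρ₂ a b)
    (ha : 0 < a) (hb : b < 1) : ∫ z in Dk k, tf k ρ₁ ρ₂ z = 1 := by
  have e1 : ∫ z in Dk k, tf k ρ₁ ρ₂ z = ∫ z, tf k ρ₁ ρ₂ z := by
    apply setIntegral_eq_integral_of_forall_compl_eq_zero
    intro z hz
    by_contra hne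
    apply hz
    have m1 : z 0 - k * z 1 ∈ Ioo a b := by
      by_contra h
      exact hne (by show ρ₁ _ * ρ₂ _ = 0; rw [h1.supp _ h, zero_mul])
    have m2 : z 1 ∈ Ioo a b := by
      by_contra h
      exact hne (by show ρ₁ _ * ρ₂ _ = 0; rw [h2.supp _ h, mul_zero])
    exact ⟨⟨ha.trans m2.1, m2.2.trans hb⟩, ha.trans m1.1, m1.2.trans hb⟩
  rw [e1]
  let F : (Fin 2 → ℝ) → ℝ := fun w => ∏ i, (![ρ₁, ρ₂] : Fin 2 → ℝ → ℝ) i (w i)
  have e2 : ∀ z, tf k ρ₁ ρ₂ z = F (sh k z) := by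
    intro z
    simp [F, tf, sh, Fin.prod_univ_two]
  have hFm : AEStronglyMeasurable F ((volume : Measure (Fin 2 → ℝ)).map (sh k)) := by
    apply Continuous.aestronglyMeasurable
    have c1 := h1.smooth.continuous
    have c2 := h2.smooth.continuous
    have : F = fun w => ρ₁ (w 0) * ρ₂ (w 1) := by
      funext w; simp [F, Fin.prod_univ_two]
    rw [this]; fun_prop
  simp_rw [e2]
  rw [← integral_map (sh_mp k).measurable.aemeasurable hFm, (sh_mp k).map_eq]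
  rw [integral_fintype_prod_volume_eq_prod (fun i => (![ρ₁, ρ₂] : Fin 2 → ℝ → ℝ) i)]
  simp [Fin.prod_univ_two, h1.int, h2.int]

/-- the embedding, tested with a product of bumps -/
theorem emb_test {k : ℝ} (hk : 0 ≤ k) {f : (Fin 2 → ℝ) → ℝ} (hf : f ∈ sobBall (Dk k) 2 1)
    {ρ₁ ρ₂ η : ℝ → ℝ} {a b M : ℝ} (h1 : Bmp ρ₁ a b) (h2 : Bmp ρ₂ a b) (hη : Bmp η a b)
    (ha : 0 < a) (hab : a ≤ b) (hb : b < 1) (hM : 1 ≤ M) (hηM : ∀ t, |η t| ≤ M) :
    |∫ z in Dk k, f z * tf k ρ₁ ρ₂ z| ≤ 5 * M ^ 2 * (1 + k) := by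
  obtain ⟨hcont, g, g0, hw, hn⟩ := hf
  rw [sobNorm21] at hn
  have hz : (0 : Fin 2 → ℕ) = ![0, 0] := by decide
  rw [hz] at g0
  have hle : ∀ α ∈ multi 2 2, eLpNorm (g α) 1 (volume.restrict (Dk k)) ≤ 1 := fun α hα =>
    (Finset.single_le_sum (f := fun α => eLpNorm (g α) 1 (volume.restrict (Dk k)))
      (fun _ _ => zero_le) hα).trans hn
  have m00 : (![0, 0] : Fin 2 → ℕ) ∈ multi 2 2 := by decide
  have m10 : (![1, 0] : Fin 2 → ℕ) ∈ multi 2 2 := by decide
  have m01 : (![0, 1] : Fin 2 → ℕ) ∈ multi 2 2 := by decide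
  have m20 : (![2, 0] : Fin 2 → ℕ) ∈ multi 2 2 := by decide
  have m11 : (![1, 1] : Fin 2 → ℕ) ∈ multi 2 2 := by decide
  obtain ⟨i00, n00⟩ := l1_of (hw _ m00).2.1 (hle _ m00)
  obtain ⟨i10, n10⟩ := l1_of (hw _ m10).2.1 (hle _ m10)
  obtain ⟨i01, n01⟩ := l1_of (hw _ m01).2.1 (hle _ m01)
  obtain ⟨i20, n20⟩ := l1_of (hw _ m20).2.1 (hle _ m20)
  obtain ⟨i11, n11⟩ := l1_of (hw _ m11).2.1 (hle _ m11)
  rw [g0] at i00 n00
  obtain ⟨ψ₁, t1, b1, d1⟩ := psi_exists h1 hη ha hab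
  obtain ⟨ψ₂, t2, b2, d2⟩ := psi_exists h2 hη ha hab
  have hM0 : 0 ≤ M := by linarith
  -- weak derivatives on products
  have W10 : ∀ φ ψ : ℝ → ℝ, Tst φ a b → Tst ψ a b →
      ∫ z in Dk k, f z * tf k (deriv φ) ψ z = -∫ z in Dk k, g ![1, 0] z * tf k φ ψ z := by
    intro φ ψ hφ hψ
    obtain ⟨c1, c2⟩ := tf_supp hk hφ hψ ha hb
    have := (hw _ m10).2.2 _ (tf_smooth k hφ.smooth hψ.smooth) c1 c2
    rw [md10, pd0_tf k (diff_of_smooth hφ.smooth) (diff_of_smooth hψ.smooth)] at this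
    rw [this]; simp
  have W01 : ∀ φ ψ : ℝ → ℝ, Tst φ a b → Tst ψ a b →
      ∫ z in Dk k, f z * (-k * tf k (deriv φ) ψ z + tf k φ (deriv ψ) z) =
        -∫ z in Dk k, g ![0, 1] z * tf k φ ψ z := by
    intro φ ψ hφ hψ
    obtain ⟨c1, c2⟩ := tf_supp hk hφ hψ ha hb
    have := (hw _ m01).2.2 _ (tf_smooth k hφ.smooth hψ.smooth) c1 c2
    rw [md01, pd1_tf k (diff_of_smooth hφ.smooth) (diff_of_smooth hψ.smooth)] at this
    rw [this]; simp
  have W20 : ∀ φ ψ : ℝ → ℝ, Tst φ a b → Tst ψ a b →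
      ∫ z in Dk k, f z * tf k (deriv (deriv φ)) ψ z =
        ∫ z in Dk k, g ![2, 0] z * tf k φ ψ z := by
    intro φ ψ hφ hψ
    obtain ⟨c1, c2⟩ := tf_supp hk hφ hψ ha hb
    have := (hw _ m20).2.2 _ (tf_smooth k hφ.smooth hψ.smooth) c1 c2
    rw [md20_tf k hφ.smooth hψ.smooth] at this
    rw [this]; simp
  have W11 : ∀ φ ψ : ℝ → ℝ, Tst φ a b → Tst ψ a b →
      ∫ z in Dk k, f z * (-k * tf k (deriv (deriv φ)) ψ z + tf k (deriv φ) (deriv ψ) z) =
        ∫ z in Dk k, g ![1, 1] z * tf k φ ψ z := by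
    intro φ ψ hφ hψ
    obtain ⟨c1, c2⟩ := tf_supp hk hφ hψ ha hb
    have := (hw _ m11).2.2 _ (tf_smooth k hφ.smooth hψ.smooth) c1 c2
    rw [md11_tf k hφ.smooth hψ.smooth] at this
    rw [this]; simp
  -- integrability of `f` against products of test functions
  have hint : ∀ φ ψ : ℝ → ℝ, ContDiff ℝ (⊤ : ℕ∞) φ → ContDiff ℝ (⊤ : ℕ∞) ψ →
      (∃ B, ∀ t, |φ t| ≤ B) → (∃ B, ∀ t, |ψ t| ≤ B) →
      IntegrableOn (fun z => f z * tf k φ ψ z) (Dk k) := by
    rintro φ ψ hφ hψ ⟨B, hB⟩ ⟨B', hB'⟩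
    have hB0 : 0 ≤ B := (abs_nonneg _).trans (hB 0)
    have hB0' : 0 ≤ B' := (abs_nonneg _).trans (hB' 0)
    refine (int_bound i00 n00 (tf_smooth k hφ hψ).continuous (B := B * B') (by positivity)
      fun z => ?_).1
    show |φ _ * ψ _| ≤ _
    rw [abs_mul]
    exact mul_le_mul (hB _) (hB' _) (abs_nonneg _) hB0
  have bddT : ∀ {φ : ℝ → ℝ}, Tst φ a b → ∃ B, ∀ t, |φ t| ≤ B := by
    intro φ hφ
    obtain ⟨B, -, hB⟩ := hφ.bdd
    exact ⟨B, hB⟩
  have dT : ∀ {φ : ℝ → ℝ}, Tst φ a b → Tst (deriv φ) a b := by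
    intro φ hφ
    refine ⟨smooth_deriv hφ.smooth, fun t ht => ?_⟩
    have hopen : IsOpen (Icc a b)ᶜ := isClosed_Icc.isOpen_compl
    have : φ =ᶠ[𝓝 t] fun _ => 0 := by
      filter_upwards [hopen.mem_nhds ht] with s hs
      exact hφ.supp s hs
    rw [this.deriv_eq]; simp
  have hI : ∀ {φ ψ : ℝ → ℝ}, Tst φ a b → Tst ψ a b →
      IntegrableOn (fun z => f z * tf k φ ψ z) (Dk k) := fun hφ hψ =>
    hint _ _ hφ.smooth hψ.smooth (bddT hφ) (bddT hψ)
  have e1 : ∀ t, ρ₁ t = η t + deriv ψ₁ t := fun t => by rw [d1]; ring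
  have e2 : ∀ t, ρ₂ t = η t + deriv ψ₂ t := fun t => by rw [d2]; ring
  have hsplit : ∫ z in Dk k, f z * tf k ρ₁ ρ₂ z =
      (∫ z in Dk k, f z * tf k η η z) + (∫ z in Dk k, f z * tf k (deriv ψ₁) η z) +
      ((∫ z in Dk k, f z * tf k η (deriv ψ₂) z) +
        ∫ z in Dk k, f z * tf k (deriv ψ₁) (deriv ψ₂) z) := by
    have I1 := hI hη.tst hη.tst
    have I2 := hI (dT t1) hη.tst
    have I3 := hI hη.tst (dT t2)
    have I4 := hI (dT t1) (dT t2)
    calc ∫ z in Dk k, f z * tf k ρ₁ ρ₂ z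
        = ∫ z in Dk k, ((f z * tf k η η z + f z * tf k (deriv ψ₁) η z) +
            (f z * tf k η (deriv ψ₂) z + f z * tf k (deriv ψ₁) (deriv ψ₂) z)) := by
          congr 1
          funext z
          simp only [tf, e1, e2]
          ring
      _ = (∫ z in Dk k, (f z * tf k η η z + f z * tf k (deriv ψ₁) η z)) +
            ∫ z in Dk k, (f z * tf k η (deriv ψ₂) z + f z * tf k (deriv ψ₁) (deriv ψ₂) z) :=
          integral_add (I1.add I2) (I3.add I4)
      _ = _ := by rw [integral_add I1 I2, integral_add I3 I4]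
  have s2 : ∫ z in Dk k, f z * tf k (deriv ψ₁) η z =
      -∫ z in Dk k, g ![1, 0] z * tf k ψ₁ η z := W10 _ _ t1 hη.tst
  have s3 : ∫ z in Dk k, f z * tf k η (deriv ψ₂) z =
      (-∫ z in Dk k, g ![0, 1] z * tf k η ψ₂ z) - k * ∫ z in Dk k, g ![1, 0] z * tf k η ψ₂ z := by
    have h := W01 _ _ hη.tst t2
    have h' := W10 _ _ hη.tst t2
    have hadd : ∫ z in Dk k, f z * (-k * tf k (deriv η) ψ₂ z + tf k η (deriv ψ₂) z) =
        -k * (∫ z in Dk k, f z * tf k (deriv η) ψ₂ z) +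
          ∫ z in Dk k, f z * tf k η (deriv ψ₂) z := by
      rw [← integral_const_mul, ← integral_add ((hI (dT hη.tst) t2).const_mul _)
        (hI hη.tst (dT t2))]
      congr 1
      funext z
      ring
    rw [hadd, h'] at h
    linarith
  have s4 : ∫ z in Dk k, f z * tf k (deriv ψ₁) (deriv ψ₂) z =
      (∫ z in Dk k, g ![1, 1] z * tf k ψ₁ ψ₂ z) + k * ∫ z in Dk k, g ![2, 0] z * tf k ψ₁ ψ₂ z := by
    have h := W11 _ _ t1 t2
    have h' := W20 _ _ t1 t2
    have hadd : ∫ z in Dk k, f z * (-k * tf k (deriv (deriv ψ₁)) ψ₂ z +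
          tf k (deriv ψ₁) (deriv ψ₂) z) =
        -k * (∫ z in Dk k, f z * tf k (deriv (deriv ψ₁)) ψ₂ z) +
          ∫ z in Dk k, f z * tf k (deriv ψ₁) (deriv ψ₂) z := by
      rw [← integral_const_mul, ← integral_add ((hI (dT (dT t1)) t2).const_mul _)
        (hI (dT t1) (dT t2))]
      congr 1
      funext z
      ring
    rw [hadd, h'] at h
    linarith
  have B1 : |∫ z in Dk k, f z * tf k η η z| ≤ M * M :=
    (int_bound i00 n00 (tf_smooth k hη.smooth hη.smooth).continuous (by positivity) fun z => by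
      show |η _ * η _| ≤ _
      rw [abs_mul]; exact mul_le_mul (hηM _) (hηM _) (abs_nonneg _) hM0).2
  have B2 : |∫ z in Dk k, g ![1, 0] z * tf k ψ₁ η z| ≤ 1 * M :=
    (int_bound i10 n10 (tf_smooth k t1.smooth hη.smooth).continuous (by positivity) fun z => by
      show |ψ₁ _ * η _| ≤ _
      rw [abs_mul]; exact mul_le_mul (b1 _) (hηM _) (abs_nonneg _) zero_le_one).2
  have B3 : |∫ z in Dk k, g ![0, 1] z * tf k η ψ₂ z| ≤ M * 1 :=
    (int_bound i01 n01 (tf_smooth k hη.smooth t2.smooth).continuous (by positivity) fun z => by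
      show |η _ * ψ₂ _| ≤ _
      rw [abs_mul]; exact mul_le_mul (hηM _) (b2 _) (abs_nonneg _) hM0).2
  have B4 : |∫ z in Dk k, g ![1, 0] z * tf k η ψ₂ z| ≤ M * 1 :=
    (int_bound i10 n10 (tf_smooth k hη.smooth t2.smooth).continuous (by positivity) fun z => by
      show |η _ * ψ₂ _| ≤ _
      rw [abs_mul]; exact mul_le_mul (hηM _) (b2 _) (abs_nonneg _) hM0).2
  have B5 : |∫ z in Dk k, g ![1, 1] z * tf k ψ₁ ψ₂ z| ≤ 1 * 1 :=
    (int_bound i11 n11 (tf_smooth k t1.smooth t2.smooth).continuous (by positivity) fun z => by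
      show |ψ₁ _ * ψ₂ _| ≤ _
      rw [abs_mul]; exact mul_le_mul (b1 _) (b2 _) (abs_nonneg _) zero_le_one).2
  have B6 : |∫ z in Dk k, g ![2, 0] z * tf k ψ₁ ψ₂ z| ≤ 1 * 1 :=
    (int_bound i20 n20 (tf_smooth k t1.smooth t2.smooth).continuous (by positivity) fun z => by
      show |ψ₁ _ * ψ₂ _| ≤ _
      rw [abs_mul]; exact mul_le_mul (b1 _) (b2 _) (abs_nonneg _) zero_le_one).2
  rw [hsplit, s2, s3, s4]
  rw [abs_le] at B1 B2 B3 B4 B5 B6
  have k4 : |k * ∫ z in Dk k, g ![1, 0] z * tf k η ψ₂ z| ≤ k * (M * 1) := by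
    rw [abs_mul, abs_of_nonneg hk]
    exact mul_le_mul_of_nonneg_left (abs_le.2 B4) hk
  have k6 : |k * ∫ z in Dk k, g ![2, 0] z * tf k ψ₁ ψ₂ z| ≤ k * (1 * 1) := by
    rw [abs_mul, abs_of_nonneg hk]
    exact mul_le_mul_of_nonneg_left (abs_le.2 B6) hk
  rw [abs_le] at k4 k6
  have hMM : M ≤ M ^ 2 := by nlinarith
  have h1M : 1 ≤ M ^ 2 := by nlinarith
  have hkM : k * M ≤ k * M ^ 2 := mul_le_mul_of_nonneg_left hMM hk
  have hk1 : k ≤ k * M ^ 2 := le_mul_of_one_le_right hk h1M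
  have hk2 : 0 ≤ k * M ^ 2 := by positivity
  rw [abs_le]
  constructor
  · nlinarith
  · nlinarith

/-- **The embedding theorem.** -/
theorem emb : ∃ C0 : ℝ, 1 ≤ C0 ∧ ∀ k : ℝ, 0 ≤ k → ∀ f ∈ sobBall (Dk k) 2 1, ∀ x ∈ Dk k,
    |f x| ≤ C0 * (1 + k) := by
  obtain ⟨η, hη⟩ := bmp_exists (1 / 2) (1 / 4) (by norm_num)
  obtain ⟨M, hM, hηM⟩ := hη.tst.bdd
  refine ⟨5 * M ^ 2, by nlinarith, fun k hk f hf x hx => ?_⟩
  obtain ⟨⟨x1, x2⟩, x3, x4⟩ := id hx
  set u := x 0 - k * x 1 with hu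
  refine le_of_forall_pos_le_add fun δ hδ => ?_
  -- a neighbourhood on which `f` is close to `f x`
  have hcx : ContinuousAt f x := hf.1.continuousAt ((Dk_open k).mem_nhds hx)
  obtain ⟨r, hr, hrf⟩ := Metric.continuousAt_iff.1 hcx δ hδ
  set ε : ℝ := min (min (min u (1 - u)) (min (x 1) (1 - x 1))) (r / (k + 2)) / 2 with hε
  have hk2 : 0 < k + 2 := by linarith
  have hmin : 0 < min (min (min u (1 - u)) (min (x 1) (1 - x 1))) (r / (k + 2)) := by
    refine lt_min (lt_min (lt_min x3 (by linarith)) (lt_min x1 (by linarith))) (by positivity)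
  have hε0 : 0 < ε := by rw [hε]; linarith
  have hε2 : ε < min (min (min u (1 - u)) (min (x 1) (1 - x 1))) (r / (k + 2)) := by
    rw [hε]; linarith
  have l1 : ε < u := hε2.trans_le ((min_le_left _ _).trans ((min_le_left _ _).trans
    (min_le_left _ _)))
  have l2 : ε < 1 - u := hε2.trans_le ((min_le_left _ _).trans ((min_le_left _ _).trans
    (min_le_right _ _)))
  have l3 : ε < x 1 := hε2.trans_le ((min_le_left _ _).trans ((min_le_right _ _).trans
    (min_le_left _ _)))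
  have l4 : ε < 1 - x 1 := hε2.trans_le ((min_le_left _ _).trans ((min_le_right _ _).trans
    (min_le_right _ _)))
  have l5 : ε * (k + 2) < r := by
    have := hε2.trans_le (min_le_right _ _)
    rwa [lt_div_iff₀ hk2] at this
  obtain ⟨ρ₁, h1⟩ := bmp_exists u ε hε0
  obtain ⟨ρ₂, h2⟩ := bmp_exists (x 1) ε hε0
  set a : ℝ := min (min (u - ε) (x 1 - ε)) (1 / 4) with ha
  set b : ℝ := max (max (u + ε) (x 1 + ε)) (3 / 4) with hb
  have ha0 : 0 < a := lt_min (lt_min (by linarith) (by linarith)) (by norm_num)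
  have hb1 : b < 1 := max_lt (max_lt (by linarith) (by linarith)) (by norm_num)
  have hab : a ≤ b := (min_le_right _ _).trans ((by norm_num : (1 / 4 : ℝ) ≤ 3 / 4).trans
    (le_max_right _ _))
  have h1' : Bmp ρ₁ a b := h1.mono ((min_le_left _ _).trans (min_le_left _ _))
    ((le_max_left _ _).trans (le_max_left _ _))
  have h2' : Bmp ρ₂ a b := h2.mono ((min_le_left _ _).trans (min_le_right _ _))
    ((le_max_right _ _).trans (le_max_left _ _))
  have hη' : Bmp η a b := hη.mono ((min_le_right _ _).trans (by norm_num))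
    ((by norm_num : (1 / 2 + 1 / 4 : ℝ) ≤ 3 / 4).trans (le_max_right _ _))
  have key := emb_test hk hf h1' h2' hη' ha0 hab hb1 hM hηM
  -- comparison with `f x`
  have hnn : ∀ z, 0 ≤ tf k ρ₁ ρ₂ z := fun z => mul_nonneg (h1.nonneg _) (h2.nonneg _)
  have htI : ∫ z in Dk k, tf k ρ₁ ρ₂ z = 1 := tf_int h1' h2' ha0 hb1
  have hti : IntegrableOn (tf k ρ₁ ρ₂) (Dk k) := by
    by_contra h
    rw [integral_undef h] at htI
    exact zero_ne_one htI
  have hdiff : ∀ z, |f z * tf k ρ₁ ρ₂ z - f x * tf k ρ₁ ρ₂ z| ≤ δ * tf k ρ₁ ρ₂ z := by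
    intro z
    rw [← sub_mul, abs_mul, abs_of_nonneg (hnn z)]
    by_cases hz : tf k ρ₁ ρ₂ z = 0
    · rw [hz, mul_zero, mul_zero]
    · apply mul_le_mul_of_nonneg_right _ (hnn z)
      have m1 : z 0 - k * z 1 ∈ Ioo (u - ε) (u + ε) := by
        by_contra h
        exact hz (by show ρ₁ _ * ρ₂ _ = 0; rw [h1.supp _ h, zero_mul])
      have m2 : z 1 ∈ Ioo (x 1 - ε) (x 1 + ε) := by
        by_contra h
        exact hz (by show ρ₁ _ * ρ₂ _ = 0; rw [h2.supp _ h, mul_zero])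
      have d1 : |z 1 - x 1| ≤ ε := by
        rw [abs_le]; constructor <;> linarith [m2.1, m2.2]
      have d0 : |z 0 - x 0| ≤ ε * (k + 1) := by
        have e : z 0 - x 0 = (z 0 - k * z 1 - u) + k * (z 1 - x 1) := by rw [hu]; ring
        have d2 : |z 0 - k * z 1 - u| ≤ ε := by
          rw [abs_le]; constructor <;> linarith [m1.1, m1.2]
        rw [e]
        calc |(z 0 - k * z 1 - u) + k * (z 1 - x 1)| ≤ |z 0 - k * z 1 - u| + |k * (z 1 - x 1)| :=
              abs_add_le _ _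
          _ ≤ ε + k * ε := by
              rw [abs_mul, abs_of_nonneg hk]
              exact add_le_add d2 (mul_le_mul_of_nonneg_left d1 hk)
          _ = _ := by ring
      have hdist : dist z x < r := by
        refine lt_of_le_of_lt ?_ l5
        rw [dist_pi_le_iff (by positivity)]
        intro i
        fin_cases i
        · show |z 0 - x 0| ≤ _
          exact d0.trans (mul_le_mul_of_nonneg_left (by linarith) hε0.le)
        · show |z 1 - x 1| ≤ _
          refine d1.trans ?_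
          nlinarith
      have := hrf hdist
      rw [Real.dist_eq] at this
      exact this.le
  have hfi : IntegrableOn (fun z => f x * tf k ρ₁ ρ₂ z) (Dk k) := hti.const_mul _
  have hfI : IntegrableOn (fun z => f z * tf k ρ₁ ρ₂ z) (Dk k) := by
    have hm : AEStronglyMeasurable (fun z => f z * tf k ρ₁ ρ₂ z) (volume.restrict (Dk k)) :=
      (hf.1.aestronglyMeasurable (Dk_open k).measurableSet).mul
        (tf_smooth k h1.smooth h2.smooth).continuous.aestronglyMeasurable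
    have hd : IntegrableOn (fun z => f z * tf k ρ₁ ρ₂ z - f x * tf k ρ₁ ρ₂ z) (Dk k) := by
      refine Integrable.mono' (hti.const_mul δ) (hm.sub hfi.aestronglyMeasurable) ?_
      exact Eventually.of_forall hdiff
    have := hd.add hfi
    refine this.congr (Eventually.of_forall fun z => ?_)
    show f z * tf k ρ₁ ρ₂ z - f x * tf k ρ₁ ρ₂ z + f x * tf k ρ₁ ρ₂ z = f z * tf k ρ₁ ρ₂ z
    ring
  have hclose : |(∫ z in Dk k, f z * tf k ρ₁ ρ₂ z) - f x| ≤ δ := by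
    have e : f x = ∫ z in Dk k, f x * tf k ρ₁ ρ₂ z := by
      rw [integral_const_mul, htI, mul_one]
    calc |(∫ z in Dk k, f z * tf k ρ₁ ρ₂ z) - f x|
        = |∫ z in Dk k, (f z * tf k ρ₁ ρ₂ z - f x * tf k ρ₁ ρ₂ z)| := by
          rw [integral_sub hfI hfi, ← e]
      _ ≤ ∫ z in Dk k, |f z * tf k ρ₁ ρ₂ z - f x * tf k ρ₁ ρ₂ z| := abs_integral_le_integral_abs
      _ ≤ ∫ z in Dk k, δ * tf k ρ₁ ρ₂ z :=
          integral_mono (hfI.sub hfi).abs (hti.const_mul δ) hdiff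
      _ = δ := by rw [integral_const_mul, htI, mul_one]
  rw [abs_le] at key hclose
  rw [abs_le]
  constructor <;> linarith [key.1, key.2, hclose.1, hclose.2]

end Pool.Agent.H896IID
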