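import Mathlib
import Pool.Agent.H896IID.Emb2
set_option autoImplicit false

/-!
# Lower bound: fooling functions near the sharp vertex of the sheared square
-/

namespace Pool.Agent.H896IID
open MeasureTheory Set Filter Pool.Agent.Helper579.Iid
open scoped ENNReal Topology

/-! ### integration by parts -/

/-- test functions on `D` -/
structure Cc (D : Set (Fin 2 → ℝ)) (φ : (Fin 2 → ℝ) → ℝ) : Prop where
  smooth : ContDiff ℝ (⊤ : ℕ∞) φ
  cpt : HasCompactSupport φ
  supp : tsupport φ ⊆ D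

theorem pderiv_smooth {φ : (Fin 2 → ℝ) → ℝ} (h : ContDiff ℝ (⊤ : ℕ∞) φ) (i : Fin 2) :
    ContDiff ℝ (⊤ : ℕ∞) (pderiv i φ) := by
  have h1 : ContDiff ℝ (⊤ : ℕ∞) (fderiv ℝ φ) := h.fderiv_right (m := (⊤ : ℕ∞)) (by simp)
  exact h1.clm_apply contDiff_const

theorem pderiv_zero_off {φ : (Fin 2 → ℝ) → ℝ} (i : Fin 2) {z : Fin 2 → ℝ} (hz : z ∉ tsupport φ) :
    pderiv i φ z = 0 := by
  show fderiv ℝ φ z _ = 0
  rw [fderiv_of_notMem_tsupport ℝ hz]
  rfl

theorem Cc.pd {D : Set (Fin 2 → ℝ)} {φ : (Fin 2 → ℝ) → ℝ} (h : Cc D φ) (i : Fin 2) :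
    Cc D (pderiv i φ) := by
  have hs : tsupport (pderiv i φ) ⊆ tsupport φ := by
    apply closure_minimal _ (isClosed_tsupport φ)
    intro z hz
    by_contra h'
    exact hz (pderiv_zero_off i h')
  exact ⟨pderiv_smooth h.smooth i, HasCompactSupport.of_support_subset_isCompact h.cpt
    ((subset_tsupport _).trans hs), hs.trans h.supp⟩

theorem ibp {D : Set (Fin 2 → ℝ)} {f φ : (Fin 2 → ℝ) → ℝ} (hf : ContDiff ℝ (⊤ : ℕ∞) f)
    (h : Cc D φ) (i : Fin 2) :
    ∫ z in D, f z * pderiv i φ z = -∫ z in D, pderiv i f z * φ z := by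
  have e1 : ∫ z in D, f z * pderiv i φ z = ∫ z, f z * pderiv i φ z := by
    apply setIntegral_eq_integral_of_forall_compl_eq_zero
    intro z hz
    rw [pderiv_zero_off i (fun h' => hz (h.supp h')), mul_zero]
  have e2 : ∫ z in D, pderiv i f z * φ z = ∫ z, pderiv i f z * φ z := by
    apply setIntegral_eq_integral_of_forall_compl_eq_zero
    intro z hz
    have : φ z = 0 := by
      by_contra hne
      exact hz (h.supp (subset_tsupport _ hne))
    rw [this, mul_zero]
  rw [e1, e2]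
  apply integral_mul_fderiv_eq_neg_fderiv_mul_of_integrable
  · exact ((pderiv_smooth hf i).continuous.mul h.smooth.continuous).integrable_of_hasCompactSupport
      (h.cpt.mul_left)
  · exact (hf.continuous.mul (pderiv_smooth h.smooth i).continuous).integrable_of_hasCompactSupport
      ((h.pd i).cpt.mul_left)
  · exact (hf.continuous.mul h.smooth.continuous).integrable_of_hasCompactSupport
      (h.cpt.mul_left)
  · exact fun x _ => hf.differentiable (by simp) x
  · exact fun x _ => h.smooth.differentiable (by simp) x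

/-! ### the cut-off function -/

/-- smooth function, one on `(-∞,1/2]` and zero on `[1,∞)` -/
noncomputable def cut (t : ℝ) : ℝ := Real.smoothTransition (2 - 2 * t)

theorem cut_smooth : ContDiff ℝ (⊤ : ℕ∞) cut := by
  have h : ContDiff ℝ (⊤ : ℕ∞) fun t : ℝ => 2 - 2 * t := by fun_prop
  exact (Real.smoothTransition.contDiff (n := (⊤ : ℕ∞))).comp h

theorem cut_one {t : ℝ} (h : t ≤ 1 / 2) : cut t = 1 :=
  Real.smoothTransition.one_of_one_le (by linarith)

theorem cut_zero {t : ℝ} (h : 1 ≤ t) : cut t = 0 :=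
  Real.smoothTransition.zero_of_nonpos (by linarith)

theorem tst_deriv {φ : ℝ → ℝ} {a b : ℝ} (hφ : Tst φ a b) : Tst (deriv φ) a b := by
  refine ⟨smooth_deriv hφ.smooth, fun t ht => ?_⟩
  have hopen : IsOpen (Icc a b)ᶜ := isClosed_Icc.isOpen_compl
  have : φ =ᶠ[𝓝 t] fun _ => 0 := by
    filter_upwards [hopen.mem_nhds ht] with s hs
    exact hφ.supp s hs
  rw [this.deriv_eq]; simp

theorem cut_tst : Tst (deriv cut) 0 1 := by
  refine ⟨smooth_deriv cut_smooth, fun t ht => ?_⟩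
  rw [mem_Icc, not_and_or, not_le, not_le] at ht
  rcases ht with ht | ht
  · have : cut =ᶠ[𝓝 t] fun _ => 1 := by
      filter_upwards [Iio_mem_nhds ht] with s hs
      have hs' : s < 0 := hs
      exact cut_one (by linarith)
    rw [this.deriv_eq]; simp
  · have : cut =ᶠ[𝓝 t] fun _ => 0 := by
      filter_upwards [Ioi_mem_nhds ht] with s hs
      have hs' : 1 < s := hs
      exact cut_zero hs'.le
    rw [this.deriv_eq]; simp

theorem cut_bdd : ∃ C : ℝ, 1 ≤ C ∧ (∀ t, |cut t| ≤ C) ∧ (∀ t, |deriv cut t| ≤ C) ∧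
    ∀ t, |deriv (deriv cut) t| ≤ C := by
  obtain ⟨C1, h1, h1'⟩ := cut_tst.bdd
  obtain ⟨C2, h2, h2'⟩ := (tst_deriv cut_tst).bdd
  refine ⟨max C1 C2, h1.trans (le_max_left _ _), fun t => ?_, fun t => (h1' t).trans
    (le_max_left _ _), fun t => (h2' t).trans (le_max_right _ _)⟩
  refine le_trans ?_ (h1.trans (le_max_left _ _))
  unfold cut
  rw [abs_le]
  constructor
  · linarith [Real.smoothTransition.nonneg (2 - 2 * t)]
  · exact Real.smoothTransition.le_one _

/-- the scaled cut-off -/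
noncomputable def sc (A ε : ℝ) (h : ℝ → ℝ) (t : ℝ) : ℝ := A * h (t / ε)

theorem sc_smooth (A ε : ℝ) {h : ℝ → ℝ} (hh : ContDiff ℝ (⊤ : ℕ∞) h) :
    ContDiff ℝ (⊤ : ℕ∞) (sc A ε h) := by
  have h1 : ContDiff ℝ (⊤ : ℕ∞) fun t : ℝ => t / ε := by fun_prop
  exact contDiff_const.mul (hh.comp h1)

theorem sc_deriv (A ε : ℝ) {h : ℝ → ℝ} (hh : ContDiff ℝ (⊤ : ℕ∞) h) :
    deriv (sc A ε h) = sc (A / ε) ε (deriv h) := by
  funext t
  have h1 := (diff_of_smooth hh (t / ε)).hasDerivAt.comp t ((hasDerivAt_id t).div_const ε)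
  have h2 := (h1.const_mul A).deriv
  have h3 : deriv (sc A ε h) t = A * (deriv h (t / ε) * (1 / ε)) := h2
  rw [h3]
  unfold sc; ring

/-- the functions on the plane -/
noncomputable def fo (A ε : ℝ) (h : ℝ → ℝ) (z : Fin 2 → ℝ) : ℝ := tf 0 (sc A ε h) (fun _ => 1) z

theorem fo_eq (A ε : ℝ) (h : ℝ → ℝ) (z : Fin 2 → ℝ) : fo A ε h z = A * h (z 0 / ε) := by
  unfold fo tf sc
  rw [zero_mul, sub_zero, mul_one]

theorem fo_smooth (A ε : ℝ) {h : ℝ → ℝ} (hh : ContDiff ℝ (⊤ : ℕ∞) h) :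
    ContDiff ℝ (⊤ : ℕ∞) (fo A ε h) := tf_smooth 0 (sc_smooth A ε hh) contDiff_const

theorem fo_pd0 (A ε : ℝ) {h : ℝ → ℝ} (hh : ContDiff ℝ (⊤ : ℕ∞) h) :
    pderiv 0 (fo A ε h) = fo (A / ε) ε (deriv h) := by
  have e : fo A ε h = tf 0 (sc A ε h) (fun _ => 1) := rfl
  rw [e, pd0_tf 0 (diff_of_smooth (sc_smooth A ε hh)) (differentiable_const _), sc_deriv A ε hh]
  rfl

theorem fo_pd1 (A ε : ℝ) {h : ℝ → ℝ} (hh : ContDiff ℝ (⊤ : ℕ∞) h) :
    pderiv 1 (fo A ε h) = fun _ => 0 := by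
  have e : fo A ε h = tf 0 (sc A ε h) (fun _ => 1) := rfl
  rw [e, pd1_tf 0 (diff_of_smooth (sc_smooth A ε hh)) (differentiable_const _)]
  funext z
  have : deriv (fun _ : ℝ => (1 : ℝ)) = fun _ => 0 := by funext t; simp
  rw [this]
  unfold tf; ring

/-- the part of the domain near the vertex is small -/
theorem vol_near {k ε : ℝ} (hk : 0 < k) (hε : 0 ≤ ε) :
    volume (Dk k ∩ {z | z 0 ≤ ε}) ≤ ENNReal.ofReal (ε * (ε / k)) := by
  have h : Dk k ∩ {z | z 0 ≤ ε} ⊆ Icc (0 : Fin 2 → ℝ) ![ε, ε / k] := by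
    rintro z ⟨⟨⟨h1, h2⟩, h3, h4⟩, h5⟩
    have h5' : z 0 ≤ ε := h5
    have h6 : 0 < k * z 1 := by positivity
    constructor
    · intro i
      fin_cases i
      · show (0 : ℝ) ≤ z 0
        linarith
      · show (0 : ℝ) ≤ z 1
        exact h1.le
    · intro i
      fin_cases i
      · exact h5'
      · show z 1 ≤ ε / k
        rw [le_div_iff₀ hk]
        linarith
  refine (measure_mono h).trans ?_
  rw [Real.volume_Icc_pi]
  rw [Fin.prod_univ_two]
  simp only [Matrix.cons_val_zero, Matrix.cons_val_one, Pi.zero_apply, sub_zero]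
  rw [← ENNReal.ofReal_mul hε]

/-- `L_1` norm of the scaled functions -/
theorem fo_norm {k A ε C : ℝ} {h : ℝ → ℝ} (hk : 0 < k) (hε : 0 < ε) (hA : 0 ≤ A) (hC : 0 ≤ C)
    (hb : ∀ t, |h t| ≤ C) (hz : ∀ t, 1 < t → h t = 0) :
    eLpNorm (fo A ε h) 1 (volume.restrict (Dk k)) ≤ ENNReal.ofReal (A * C * (ε * (ε / k))) := by
  rw [eLpNorm_one_eq_lintegral_enorm]
  have hm : MeasurableSet {z : Fin 2 → ℝ | z 0 ≤ ε} :=
    measurableSet_le (measurable_pi_apply 0) measurable_const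
  calc ∫⁻ z in Dk k, ‖fo A ε h z‖ₑ
      ≤ ∫⁻ z in Dk k, ({z : Fin 2 → ℝ | z 0 ≤ ε}).indicator
          (fun _ => ENNReal.ofReal (A * C)) z := by
        apply lintegral_mono
        intro z
        by_cases hz0 : z 0 ≤ ε
        · rw [indicator_of_mem (show z ∈ {z : Fin 2 → ℝ | z 0 ≤ ε} from hz0)]
          show ‖fo A ε h z‖ₑ ≤ _
          rw [← ofReal_norm, Real.norm_eq_abs, fo_eq, abs_mul, abs_of_nonneg hA]
          exact ENNReal.ofReal_le_ofReal (mul_le_mul_of_nonneg_left (hb _) hA)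
        · show ‖fo A ε h z‖ₑ ≤ _
          rw [fo_eq, hz _ (by rw [lt_div_iff₀ hε]; push Not at hz0; linarith), mul_zero]
          simp
    _ = ENNReal.ofReal (A * C) * volume (Dk k ∩ {z | z 0 ≤ ε}) := by
        rw [lintegral_indicator_const hm, Measure.restrict_apply hm, inter_comm]
    _ ≤ ENNReal.ofReal (A * C) * ENNReal.ofReal (ε * (ε / k)) :=
        mul_le_mul_right (vol_near hk hε.le) _
    _ = _ := by rw [← ENNReal.ofReal_mul (by positivity)]

theorem fo_ball {k ε C : ℝ} (hk : 0 < k) (hε : 0 < ε) (hε1 : ε ≤ 1) (hC : 1 ≤ C)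
    (h0 : ∀ t, |cut t| ≤ C) (h1 : ∀ t, |deriv cut t| ≤ C) (h2 : ∀ t, |deriv (deriv cut) t| ≤ C) :
    fo (k / (3 * C)) ε cut ∈ sobBall (Dk k) 2 1 := by
  classical
  have hC0 : 0 < C := by linarith
  set A := k / (3 * C) with hA
  have hA0 : 0 ≤ A := by positivity
  have s0 := fo_smooth A ε cut_smooth
  have s1 := fo_smooth (A / ε) ε cut_tst.smooth
  have s2 := fo_smooth (A / ε / ε) ε (tst_deriv cut_tst).smooth
  have hDm := (Dk_open k).measurableSet
  have li : ∀ {f : (Fin 2 → ℝ) → ℝ}, Continuous f → LocallyIntegrableOn f (Dk k) :=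
    fun hf => hf.locallyIntegrable.locallyIntegrableOn _
  have l0 : LocallyIntegrableOn (fun _ : Fin 2 → ℝ => (0 : ℝ)) (Dk k) := li continuous_const
  refine ⟨s0.continuous.continuousOn, fun α => if α = ![0, 0] then fo A ε cut else
    if α = ![1, 0] then fo (A / ε) ε (deriv cut) else
    if α = ![2, 0] then fo (A / ε / ε) ε (deriv (deriv cut)) else fun _ => 0, ?_, ?_, ?_⟩
  · have hz : (0 : Fin 2 → ℕ) = ![0, 0] := by decide
    rw [hz]; simp
  · intro α hα
    rw [multi22] at hα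
    simp only [Finset.mem_insert, Finset.mem_singleton] at hα
    rcases hα with rfl | rfl | rfl | rfl | rfl | rfl
    · simp only [if_true]
      refine ⟨li s0.continuous, li s0.continuous, fun φ _ _ _ => ?_⟩
      rw [md00]; simp
    · have e1 : (![1, 0] : Fin 2 → ℕ) ≠ ![0, 0] := by decide
      simp only [if_true, if_neg e1]
      refine ⟨li s0.continuous, li s1.continuous, fun φ c1 c2 c3 => ?_⟩
      rw [md10, ibp s0 ⟨c1, c2, c3⟩ 0, fo_pd0 A ε cut_smooth]; simp
    · have e1 : (![0, 1] : Fin 2 → ℕ) ≠ ![0, 0] := by decide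
      have e2 : (![0, 1] : Fin 2 → ℕ) ≠ ![1, 0] := by decide
      have e3 : (![0, 1] : Fin 2 → ℕ) ≠ ![2, 0] := by decide
      simp only [if_neg e1, if_neg e2, if_neg e3]
      refine ⟨li s0.continuous, l0, fun φ c1 c2 c3 => ?_⟩
      rw [md01, ibp s0 ⟨c1, c2, c3⟩ 1, fo_pd1 A ε cut_smooth]; simp
    · have e1 : (![2, 0] : Fin 2 → ℕ) ≠ ![0, 0] := by decide
      have e2 : (![2, 0] : Fin 2 → ℕ) ≠ ![1, 0] := by decide
      simp only [if_true, if_neg e1, if_neg e2]
      refine ⟨li s0.continuous, li s2.continuous, fun φ c1 c2 c3 => ?_⟩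
      have e : mderiv ![2, 0] φ = pderiv 0 (pderiv 0 φ) := by
        unfold mderiv
        simp [List.finRange_succ]
      have hcc : Cc (Dk k) φ := ⟨c1, c2, c3⟩
      rw [e, ibp s0 (hcc.pd 0) 0, fo_pd0 A ε cut_smooth, ibp s1 hcc 0,
        fo_pd0 (A / ε) ε cut_tst.smooth]; simp
    · have e1 : (![1, 1] : Fin 2 → ℕ) ≠ ![0, 0] := by decide
      have e2 : (![1, 1] : Fin 2 → ℕ) ≠ ![1, 0] := by decide
      have e3 : (![1, 1] : Fin 2 → ℕ) ≠ ![2, 0] := by decide
      simp only [if_neg e1, if_neg e2, if_neg e3]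
      refine ⟨li s0.continuous, l0, fun φ c1 c2 c3 => ?_⟩
      have e : mderiv ![1, 1] φ = pderiv 0 (pderiv 1 φ) := by
        unfold mderiv
        simp [List.finRange_succ]
      have hcc : Cc (Dk k) φ := ⟨c1, c2, c3⟩
      rw [e, ibp s0 (hcc.pd 1) 0, fo_pd0 A ε cut_smooth, ibp s1 hcc 1,
        fo_pd1 (A / ε) ε cut_tst.smooth]; simp
    · have e1 : (![0, 2] : Fin 2 → ℕ) ≠ ![0, 0] := by decide
      have e2 : (![0, 2] : Fin 2 → ℕ) ≠ ![1, 0] := by decide
      have e3 : (![0, 2] : Fin 2 → ℕ) ≠ ![2, 0] := by decide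
      simp only [if_neg e1, if_neg e2, if_neg e3]
      refine ⟨li s0.continuous, l0, fun φ c1 c2 c3 => ?_⟩
      have e : mderiv ![0, 2] φ = pderiv 1 (pderiv 1 φ) := by
        unfold mderiv
        simp [List.finRange_succ]
      have hcc : Cc (Dk k) φ := ⟨c1, c2, c3⟩
      rw [e, ibp s0 (hcc.pd 1) 1, fo_pd1 A ε cut_smooth]; simp
  · rw [sobNorm21, multi22]
    have hεε : ε * ε ≤ 1 := by nlinarith
    have t0 : ENNReal.ofReal (A * C * (ε * (ε / k))) ≤ ENNReal.ofReal (1 / 3) := by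
      apply ENNReal.ofReal_le_ofReal
      have : A * C * (ε * (ε / k)) = ε * ε * (1 / 3) := by rw [hA]; field_simp
      rw [this]; linarith
    have t1 : ENNReal.ofReal (A / ε * C * (ε * (ε / k))) ≤ ENNReal.ofReal (1 / 3) := by
      apply ENNReal.ofReal_le_ofReal
      have : A / ε * C * (ε * (ε / k)) = ε * (1 / 3) := by rw [hA]; field_simp
      rw [this]; linarith
    have t2 : ENNReal.ofReal (A / ε / ε * C * (ε * (ε / k))) ≤ ENNReal.ofReal (1 / 3) := by
      apply ENNReal.ofReal_le_ofReal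
      have : A / ε / ε * C * (ε * (ε / k)) = 1 / 3 := by rw [hA]; field_simp
      rw [this]
    have n0 := (fo_norm (k := k) hk hε hA0 hC0.le h0 fun t ht => cut_zero ht.le).trans t0
    have n1 := (fo_norm (k := k) (A := A / ε) hk hε (by positivity) hC0.le h1 fun t ht =>
      cut_tst.supp t fun h => by linarith [h.2]).trans t1
    have n2 := (fo_norm (k := k) (A := A / ε / ε) hk hε (by positivity) hC0.le h2 fun t ht =>
      (tst_deriv cut_tst).supp t fun h => by linarith [h.2]).trans t2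
    rw [Finset.sum_insert (by decide), Finset.sum_insert (by decide),
      Finset.sum_insert (by decide), Finset.sum_insert (by decide),
      Finset.sum_insert (by decide), Finset.sum_singleton]
    have c1 : (![1, 0] : Fin 2 → ℕ) ≠ ![0, 0] := by decide
    have c2 : (![0, 1] : Fin 2 → ℕ) ≠ ![0, 0] := by decide
    have c3 : (![0, 1] : Fin 2 → ℕ) ≠ ![1, 0] := by decide
    have c4 : (![0, 1] : Fin 2 → ℕ) ≠ ![2, 0] := by decide
    have c5 : (![2, 0] : Fin 2 → ℕ) ≠ ![0, 0] := by decide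
    have c6 : (![2, 0] : Fin 2 → ℕ) ≠ ![1, 0] := by decide
    have c7 : (![1, 1] : Fin 2 → ℕ) ≠ ![0, 0] := by decide
    have c8 : (![1, 1] : Fin 2 → ℕ) ≠ ![1, 0] := by decide
    have c9 : (![1, 1] : Fin 2 → ℕ) ≠ ![2, 0] := by decide
    have c10 : (![0, 2] : Fin 2 → ℕ) ≠ ![0, 0] := by decide
    have c11 : (![0, 2] : Fin 2 → ℕ) ≠ ![1, 0] := by decide
    have c12 : (![0, 2] : Fin 2 → ℕ) ≠ ![2, 0] := by decide
    simp only [if_true, if_neg c1, if_neg c2, if_neg c3, if_neg c4, if_neg c5, if_neg c6,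
      if_neg c7, if_neg c8, if_neg c9, if_neg c10, if_neg c11, if_neg c12]
    have z0 : eLpNorm (fun _ : Fin 2 → ℝ => (0 : ℝ)) 1 (volume.restrict (Dk k)) = 0 :=
      eLpNorm_zero'
    rw [z0, zero_add, zero_add, add_zero]
    calc eLpNorm (fo A ε cut) 1 (volume.restrict (Dk k)) +
          (eLpNorm (fo (A / ε) ε (deriv cut)) 1 (volume.restrict (Dk k)) +
            eLpNorm (fo (A / ε / ε) ε (deriv (deriv cut))) 1 (volume.restrict (Dk k)))
        ≤ ENNReal.ofReal (1 / 3) + (ENNReal.ofReal (1 / 3) + ENNReal.ofReal (1 / 3)) :=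
          add_le_add n0 (add_le_add n1 n2)
      _ = 1 := by
          rw [← ENNReal.ofReal_add (by norm_num) (by norm_num),
            ← ENNReal.ofReal_add (by norm_num) (by norm_num)]
          norm_num

/-- lower bound for the sup norm -/
theorem fo_sup {k A ε : ℝ} (hk : 1 ≤ k) (hε : 0 < ε) (hε1 : ε ≤ 1) (hA : 0 ≤ A) :
    ENNReal.ofReal A ≤ eLpNorm (fo A ε cut) ∞ (volume.restrict (Dk k)) := by
  by_contra hlt
  push Not at hlt
  rw [eLpNorm_exponent_top] at hlt
  have h1 : ∀ᵐ z ∂(volume.restrict (Dk k)), ‖fo A ε cut z‖ₑ ≤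
      eLpNormEssSup (fo A ε cut) (volume.restrict (Dk k)) := ae_le_eLpNormEssSup
  let U : Set (Fin 2 → ℝ) := Dk k ∩ {z | z 0 < ε / 2}
  have hU : IsOpen U := (Dk_open k).inter (isOpen_lt (continuous_apply 0) continuous_const)
  have hUne : U.Nonempty := by
    refine ⟨![ε / 4, ε / (8 * k)], ⟨⟨?_, ?_⟩, ?_, ?_⟩, ?_⟩
    · show 0 < ε / (8 * k)
      positivity
    · show ε / (8 * k) < 1
      rw [div_lt_one (by positivity)]; linarith
    · show 0 < ε / 4 - k * (ε / (8 * k))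
      have : k * (ε / (8 * k)) = ε / 8 := by field_simp
      rw [this]; linarith
    · show ε / 4 - k * (ε / (8 * k)) < 1
      have : 0 < k * (ε / (8 * k)) := by positivity
      linarith
    · show ε / 4 < ε / 2
      linarith
  have hpos : 0 < volume U := hU.measure_pos volume hUne
  have h2 : ∀ᵐ z ∂(volume.restrict U), ‖fo A ε cut z‖ₑ ≤
      eLpNormEssSup (fo A ε cut) (volume.restrict (Dk k)) :=
    ae_restrict_of_ae_restrict_of_subset inter_subset_left h1
  have h3 : ∀ᵐ z ∂(volume.restrict U), z ∈ U := ae_restrict_mem hU.measurableSet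
  have hne : (volume.restrict U) ≠ 0 := by
    intro h
    have := congrArg (fun m => m univ) h
    simp only [Measure.restrict_apply_univ, Measure.coe_zero, Pi.zero_apply] at this
    exact hpos.ne' this
  haveI : (ae (volume.restrict U)).NeBot := ae_neBot.2 hne
  obtain ⟨z, hz1, hz2⟩ := (h2.and h3).exists
  have hz3 : z 0 < ε / 2 := hz2.2
  have hz4 : z 0 / ε ≤ 1 / 2 := by rw [div_le_iff₀ hε]; linarith
  rw [fo_eq, cut_one hz4, mul_one, ← ofReal_norm, Real.norm_eq_abs, abs_of_nonneg hA] at hz1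
  exact absurd (hz1.trans_lt hlt) (lt_irrefl _)

/-- **Lower bound** for the error of all methods with `n` points. -/
theorem low : ∃ c0 : ℝ, 0 < c0 ∧ ∀ k : ℝ, 1 ≤ k → ∀ n : ℕ,
    ENNReal.ofReal (c0 * k) ≤ minErr (Dk k) 2 1 ∞ Crit.ran n := by
  obtain ⟨C, hC, h0, h1, h2⟩ := cut_bdd
  have hC0 : 0 < C := by linarith
  refine ⟨1 / (6 * C), by positivity, fun k hk n => ?_⟩
  have hk0 : 0 < k := by linarith
  set A := k / (3 * C) with hA
  have hA0 : 0 ≤ A := by positivity
  set ε : ℝ := 1 / (2 * (n + 1)) with hε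
  have hn0 : (0 : ℝ) ≤ n := Nat.cast_nonneg n
  have hε0 : 0 < ε := by positivity
  have hε1 : ε ≤ 1 := by
    rw [hε, div_le_one (by positivity)]; linarith
  have hvol : volume (Dk k) = 1 := Dk_volume k
  have hprob : IsProbabilityMeasure (unif (Dk k)) := unif_isProb (by rw [hvol]; exact one_ne_zero)
    (by rw [hvol]; exact ENNReal.one_ne_top)
  set S : Set (Fin 2 → ℝ) := {z | ε < z 0} with hS
  have hSm : MeasurableSet S := measurableSet_lt measurable_const (measurable_pi_apply 0)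
  have hSz : ∀ z ∈ S, fo A ε cut z = 0 := by
    intro z hz
    have hz' : ε < z 0 := hz
    rw [fo_eq, cut_zero (by rw [le_div_iff₀ hε0]; linarith), mul_zero]
  -- the measure of `S`
  have hx : ε * (ε / k) ≤ ε := by
    have : ε / k ≤ 1 := by rw [div_le_one hk0]; linarith
    calc ε * (ε / k) ≤ ε * 1 := mul_le_mul_of_nonneg_left this hε0.le
      _ = ε := mul_one _
  have hunif : ENNReal.ofReal (1 - ε) ≤ unif (Dk k) S := by
    unfold unif
    rw [hvol, inv_one, one_smul, Measure.restrict_apply hSm]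
    have hsplit : volume (Dk k) ≤ volume (S ∩ Dk k) + volume (Dk k ∩ {z | z 0 ≤ ε}) := by
      refine (measure_mono ?_).trans (measure_union_le _ _)
      intro z hz
      by_cases h : ε < z 0
      · exact Or.inl ⟨h, hz⟩
      · exact Or.inr ⟨hz, not_lt.1 h⟩
    rw [hvol] at hsplit
    have h3 : volume (Dk k ∩ {z | z 0 ≤ ε}) ≤ ENNReal.ofReal ε :=
      (vol_near hk0 hε0.le).trans (ENNReal.ofReal_le_ofReal hx)
    rw [ENNReal.ofReal_sub _ hε0.le, ENNReal.ofReal_one, tsub_le_iff_right]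
    exact hsplit.trans (add_le_add le_rfl h3)
  have hpow : (1 / 2 : ℝ) ≤ (1 - ε) ^ n := by
    have h3 := one_add_mul_le_pow (a := -ε) (by linarith) n
    have h4 : (n : ℝ) * ε ≤ 1 / 2 := by
      rw [hε, mul_one_div, div_le_iff₀ (by positivity)]
      linarith
    have h5 : (1 : ℝ) + -ε = 1 - ε := by ring
    rw [h5] at h3
    linarith
  unfold minErr
  refine le_iInf fun M => ?_
  have hf := fo_ball hk0 hε0 hε1 hC h0 h1 h2
  have key := fooling (Dk_open k).measurableSet le_top hf hSm hSz inferInstance M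
  refine le_trans ?_ key
  calc ENNReal.ofReal (1 / (6 * C) * k) = ENNReal.ofReal (A * (1 / 2)) := by
        congr 1
        rw [hA]; field_simp; norm_num
    _ ≤ ENNReal.ofReal (A * (1 - ε) ^ n) :=
        ENNReal.ofReal_le_ofReal (mul_le_mul_of_nonneg_left hpow hA0)
    _ = ENNReal.ofReal A * ENNReal.ofReal (1 - ε) ^ n := by
        rw [ENNReal.ofReal_mul hA0, ENNReal.ofReal_pow (by linarith)]
    _ ≤ _ := mul_le_mul' (fo_sup hk hε0 hε1 hA0) (pow_le_pow_left' hunif n)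

end Pool.Agent.H896IID
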